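import Pool.Agent.Helper14.CV.StB

/-!
# Project CV for MP_3c9520_nt, module B3b: level 4
-/

set_option autoImplicit false

namespace Pool.Agent.Helper6.CV

open Pool.Agent.Helper14.CV

/-- Descent: a homogeneous potential invariant under the two parabolic generators and with equal
values at the three cusps is constant. -/
private theorem descent (K : ℤ → ℤ → ℂ) (κ : ℂ) (hH : Homog K)
    (h1 : ∀ p q : ℤ, (p ≠ 0 ∨ q ≠ 0) → K (p + q) q = K p q)
    (h2 : ∀ p q : ℤ, (p ≠ 0 ∨ q ≠ 0) → K p (4 * p + q) = K p q)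
    (k1 : K 1 0 = κ) (k2 : K 0 1 = κ) (k3 : K 1 2 = κ) :
    ∀ N : ℕ, ∀ p q : ℤ, p.natAbs + q.natAbs ≤ N → (p ≠ 0 ∨ q ≠ 0) → K p q = κ := by
  have hdown : ∀ p q : ℤ, q ≠ 0 → K (p - q) q = K p q := by
    intro p q hq
    have := h1 (p - q) q (Or.inr hq)
    rw [sub_add_cancel] at this
    exact this.symm
  have hdown2 : ∀ p q : ℤ, p ≠ 0 → K p (q - 4 * p) = K p q := by
    intro p q hp
    have := h2 p (q - 4 * p) (Or.inl hp)
    rw [add_sub_cancel] at this
    exact this.symm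
  intro N
  induction N with
  | zero =>
    intro p q h hpq
    exfalso
    rcases hpq with hp | hq <;> omega
  | succ N ih =>
    intro p q h hpq
    by_cases hp : p = 0
    · subst hp
      have hq : q ≠ 0 := by simpa using hpq
      have := hH q 0 1 hq (Or.inr one_ne_zero)
      rw [mul_zero, mul_one] at this
      rw [this, k2]
    by_cases hq : q = 0
    · subst hq
      have := hH p 1 0 hp (Or.inl one_ne_zero)
      rw [mul_zero, mul_one] at this
      rw [this, k1]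
    rcases lt_trichotomy (q.natAbs) (2 * p.natAbs) with hlt | heq | hgt
    · -- reduce p
      by_cases hs : (0 < p ∧ 0 < q) ∨ (p < 0 ∧ q < 0)
      · rw [← hdown p q hq]
        exact ih _ _ (by omega) (Or.inr hq)
      · rw [← h1 p q hpq]
        exact ih _ _ (by omega) (Or.inr hq)
    · by_cases hs : q = 2 * p
      · have := hH p 1 2 hp (Or.inl one_ne_zero)
        rw [mul_one, mul_comm p 2, ← hs] at this
        rw [this, k3]
      · have hs' : q = p * (-2) := by omega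
        have e1 := hH p 1 (-2) hp (Or.inl one_ne_zero)
        rw [mul_one, ← hs'] at e1
        have e2 := h1 1 (-2) (Or.inl one_ne_zero)
        have e3 := hH (-1) 1 2 (by norm_num) (Or.inl one_ne_zero)
        norm_num at e2 e3
        rw [e1, ← e2, e3, k3]
    · -- reduce q
      by_cases hs : (0 < p ∧ 0 < q) ∨ (p < 0 ∧ q < 0)
      · rw [← hdown2 p q hp]
        exact ih _ _ (by omega) (Or.inl hp)
      · rw [← h2 p q hpq]
        exact ih _ _ (by omega) (Or.inl hp)

private theorem const_of (K : ℤ → ℤ → ℂ) (hS : Sym 0 2 K) (hW : EqC (act 0 (-1) 4 0 K) (-K))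
    (h0 : K 1 0 = K 0 1) : EqC K 0 := by
  have h1 : ∀ p q : ℤ, (p ≠ 0 ∨ q ≠ 0) → K (p + q) q = K p q := by
    intro p q hpq
    obtain ⟨c, hc⟩ := hS.2 1 1 0 1 (by norm_num) (by norm_num) (by norm_num)
    have e1 := hc 1 0 (Or.inl one_ne_zero)
    have e2 := hc p q hpq
    simp only [act] at e1 e2
    norm_num at e1 e2
    rw [e2, e1, add_zero]
  have h2 : ∀ p q : ℤ, (p ≠ 0 ∨ q ≠ 0) → K p (4 * p + q) = K p q := by
    intro p q hpq
    obtain ⟨c, hc⟩ := hS.2 1 0 4 1 (by norm_num) (by norm_num) (by norm_num)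
    have e1 := hc 0 1 (Or.inr one_ne_zero)
    have e2 := hc p q hpq
    simp only [act] at e1 e2
    norm_num at e1 e2
    rw [e2, e1, add_zero]
  obtain ⟨c, hc⟩ := hW
  have k3 : K 1 2 = K 1 0 := by
    have e1 := hc 1 0 (Or.inl one_ne_zero)
    have e2 := hc 1 2 (Or.inl one_ne_zero)
    simp only [act, Pi.neg_apply] at e1 e2
    norm_num at e1 e2
    have e3 := hS.1 4 0 1 (by norm_num) (Or.inr one_ne_zero)
    have e4 := hS.1 (-2) 1 (-2) (by norm_num) (Or.inl one_ne_zero)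
    have e5 := h1 1 (-2) (Or.inl one_ne_zero)
    have e6 := hS.1 (-1) 1 2 (by norm_num) (Or.inl one_ne_zero)
    norm_num at e3 e4 e5 e6
    have e7 : K 1 2 = -K 1 2 + c := by
      rw [← e2, e4, ← e5, e6]
    have e8 : K 1 0 = -K 1 0 + c := by
      rw [← e1, e3, h0]
    have e9 : (2 : ℂ) * K 1 2 = 2 * K 1 0 := by
      linear_combination e7 - e8
    exact mul_left_cancel₀ two_ne_zero e9
  refine ⟨K 1 0, fun p q hpq => ?_⟩
  rw [descent K (K 1 0) hS.1 h1 h2 rfl h0.symm k3 _ p q le_rfl hpq]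
  simp

private theorem vanish (hNrm : StNrm) (hEv : StEv) (G : ℤ → ℤ → ℂ) (hG : Sym 0 2 G)
    (h0 : ev 1 G 0 0 = 0) : ∀ i j : ℕ, ev 1 G i j = 0 := by
  have hn := (hNrm 2 G le_rfl hG).1
  have hev := fun i j => (hEv 2 G le_rfl hG i j).1
  norm_num at hn hev
  set H : ℤ → ℤ → ℂ := G - act 0 (-1) 4 0 G with hH
  have hHev : ∀ i j : ℕ, ev 1 H i j = 2 * ev 1 G i j := by
    intro i j
    rw [hH, sub_eq_add_neg, ev_add, ev_neg, hev i j]
    ring
  have hHS : Sym 0 2 H := by
    rw [hH, sub_eq_add_neg]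
    exact hG.add hn.neg
  have hWW : EqC (act 0 (-1) 4 0 (act 0 (-1) 4 0 G)) G := by
    rw [act_act]
    have := hG.1.scale (a := 1) (b := 0) (c := 0) (d := 1) (-4) (by norm_num) (by norm_num)
    rw [act_one] at this
    norm_num at this ⊢
    exact this
  have hHW : EqC (act 0 (-1) 4 0 H) (-H) := by
    rw [hH, act_sub, neg_sub]
    exact (EqC.refl _).sub hWW
  have hd : H 1 0 = H 0 1 := by
    have := hHev 0 0
    rw [h0, mul_zero] at this
    exact sub_eq_zero.mp this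
  have hc := const_of H hHS hHW hd
  intro i j
  have h1 := ev_congr 1 hc i j
  have h2 : ev 1 (0 : ℤ → ℤ → ℂ) i j = 0 := by
    have := ev_smul (0 : ℂ) 1 (0 : ℤ → ℤ → ℂ) i j
    rw [zero_smul, zero_smul] at this
    exact this
  rw [hHev, h2] at h1
  exact (mul_eq_zero.mp h1).resolve_left two_ne_zero

theorem hB3b (hFar : StFar) (hNrm : StNrm) (hCom : StCom) (hEv : StEv) : StB3b := by
  by_cases h : ∃ G0 : ℤ → ℤ → ℂ, Sym 0 2 G0 ∧ ev 1 G0 0 0 ≠ 0
  · obtain ⟨G0, hG0, hne⟩ := h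
    refine ⟨fun i j => ev 1 G0 i j / ev 1 G0 0 0, fun G hG => ⟨ev 1 G 0 0, fun i j => ?_⟩⟩
    have hev : ∀ i j : ℕ, ev 1 (ev 1 G 0 0 • G0 + -(ev 1 G0 0 0 • G)) i j =
        ev 1 G 0 0 * ev 1 G0 i j - ev 1 G0 0 0 * ev 1 G i j := by
      intro i j
      rw [ev_add, ev_neg, ev_smul, ev_smul, smul_eq_mul, smul_eq_mul, sub_eq_add_neg]
    have h0 := vanish hNrm hEv (ev 1 G 0 0 • G0 + -(ev 1 G0 0 0 • G))
      ((hG0.smul _).add (hG.smul _).neg) (by rw [hev]; ring) i j
    rw [hev] at h0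
    field_simp
    linear_combination -h0
  · push Not at h
    exact ⟨0, fun G hG => ⟨0, fun i j => by
      rw [vanish hNrm hEv G hG (h G hG) i j, zero_mul]⟩⟩

end Pool.Agent.Helper6.CV
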